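import Pool.Agent.H523.ZG.Stm

set_option autoImplicit false
set_option linter.unusedSectionVars false

/-! # (W) from the variance to the zeros (helper523's project ZG; helper84) -/

namespace Pool.Agent.H84.ZG

open Polynomial Finset
open Pool.Agent.H523.FF (two_le_card)
open Pool.Agent.H523.CM
open Pool.Agent.H523.ZG

open scoped Classical

theorem W_fin (η x g M : ℝ) (hη : 0 < η) (hη1 : η ≤ 1) (hx0 : 0 < x) (hxη : x ≤ η / 4)
    (hg0 : 0 ≤ g) (h : (1 - x) * ((1 - η / 4) * g - η / 2) - x ≤ M) : (1 - η) * g - η ≤ M := by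
  refine le_trans ?_ h
  have h5 : (1 - x) * ((1 - η / 4) * g - η / 2) - x =
      (1 - x) * (1 - η / 4) * g - (1 - x) * (η / 2) - x := by ring
  rw [h5]
  have h6 : (1 - η) * g ≤ (1 - x) * (1 - η / 4) * g := by
    apply mul_le_mul_of_nonneg_right _ hg0
    nlinarith
  have h7 : (1 - x) * (η / 2) ≤ η / 2 := by nlinarith
  linarith

theorem W_est (η T d qn : ℝ) (n2 E1 E2 y z : ℝ) (hη : 0 < η) (hT1 : 1 ≤ T) (hqn : 0 < qn)
    (hy1 : T * (4 * d ^ 2 * y) ≤ η / 4) (hz1 : T * (8 * z) ≤ η / 4) (hn0 : 0 ≤ n2)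
    (hn4 : n2 ≤ 4 * d ^ 2) (hE0 : 0 ≤ E1) (hE1 : E1 ≤ qn * y) (hE2 : E2 ≤ qn * z) :
    T * (n2 * E1 + 8 * E2) ≤ η / 2 * qn := by
  have h1 : n2 * E1 ≤ (4 * d ^ 2) * (qn * y) :=
    mul_le_mul hn4 hE1 hE0 (by positivity)
  have h2 : T * (n2 * E1) ≤ η / 4 * qn := by
    calc T * (n2 * E1) ≤ T * ((4 * d ^ 2) * (qn * y)) :=
          mul_le_mul_of_nonneg_left h1 (by linarith)
      _ = (T * (4 * d ^ 2 * y)) * qn := by ring
      _ ≤ _ := mul_le_mul_of_nonneg_right hy1 hqn.le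
  have h3 : T * (8 * E2) ≤ η / 4 * qn := by
    calc T * (8 * E2) ≤ T * (8 * (qn * z)) :=
          mul_le_mul_of_nonneg_left (by linarith) (by linarith)
      _ = (T * (8 * z)) * qn := by ring
      _ ≤ _ := mul_le_mul_of_nonneg_right hz1 hqn.le
  calc _ = T * (n2 * E1) + T * (8 * E2) := by ring
    _ ≤ η / 4 * qn + η / 4 * qn := add_le_add h2 h3
    _ = _ := by ring

theorem W_aux (η : ℝ) (hη : 0 < η) (hη1 : η ≤ 1) (ε : ℝ) (hε : 0 < ε) : ∃ N : ℕ,
  ∀ (F : Type) [Field F] [Fintype F] (Q : F[X]) [Fintype (MulChar (AdjoinRoot Q) ℂ)],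
    Q.Monic → Irreducible Q → N ≤ Q.natDegree → ∀ n : ℕ, Q.natDegree < n →
    (n:ℝ) ≤ (2 - ε) * Q.natDegree →
    (1 - η) * (GG n Q / (Fintype.card F : ℝ) ^ n) - η ≤ MSq Q n := by
  set t : ℝ := η / 4 with ht
  have ht0 : 0 < t := by positivity
  set T : ℝ := 1 + 1 / t with hT
  have hT1 : 1 ≤ T := by
    have : 0 < 1 / t := by positivity
    linarith
  obtain ⟨N₁, hN₁⟩ := poly_le_exp (T * 16 / η) 2 (ε / 2) (by positivity)
  obtain ⟨N₂, hN₂⟩ := poly_le_exp (T * 32 / η) 0 (1 / 3) (by norm_num)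
  refine ⟨N₁ + N₂ + 2, ?_⟩
  intro F _ _ Q _ hQ hirr hNd n hdn hn2
  have hq := two_le_card (F := F)
  have hd : 2 ≤ Q.natDegree := by omega
  have h4 := q_pow_ge (F := F) (Q := Q) hd
  have hn1 : 1 ≤ n := by omega
  obtain ⟨-, hb2⟩ := MSq_bounds hQ hirr hd hn1
  obtain ⟨-, hx1, hx0⟩ := sqrt_growth (F := F) n
  have hdr : (2:ℝ) ≤ Q.natDegree := by exact_mod_cast hd
  have h2d : n < 2 * Q.natDegree := by
    have : (n:ℝ) < 2 * Q.natDegree := by nlinarith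
    exact_mod_cast this
  have hmv := moment_variance hQ hirr hdn h2d
  have htot : (tot Q : ℝ) = (Fintype.card F : ℝ) ^ Q.natDegree - 1 := by
    rw [tot_eq_card hQ, card_units hQ hirr]
  have hGG := GV_GG hn1 hQ hdn.le ht0
  have hGV0 : 0 ≤ GV n Q := sum_nonneg (fun _ _ => sq_nonneg _)
  have hGG0 : 0 ≤ GG n Q := sum_nonneg (fun _ _ => sq_nonneg _)
  rw [hmv, htot] at hb2
  have hnr2 : (n:ℝ) ≤ 2 * Q.natDegree := by exact_mod_cast h2d.le
  have hnr : (Q.natDegree : ℝ) ≤ n := by exact_mod_cast hdn.le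
  set q : ℝ := (Fintype.card F : ℝ) with hqd
  have hq0 : 0 < q := by linarith
  set d := Q.natDegree with hdd
  set X := q ^ d with hX
  set x : ℝ := (√q)⁻¹ ^ n with hx
  have hqn : 0 < q ^ n := by positivity
  have hG : 0 < X - 2 := by linarith
  set y : ℝ := q ^ (-(ε / 2 * d)) with hy
  have hy0 : 0 < y := Real.rpow_pos_of_pos hq0 _
  set z : ℝ := q ^ (-((1:ℝ) / 3 * d)) with hz
  have hz0 : 0 < z := Real.rpow_pos_of_pos hq0 _
  have hexp : ∀ κ : ℝ, 0 ≤ κ → ((2:ℝ) ^ κ) ^ d ≤ q ^ (κ * d) := by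
    intro κ hκ
    rw [Real.rpow_mul hq0.le, Real.rpow_natCast]
    exact pow_le_pow_left₀ (by positivity) (Real.rpow_le_rpow (by norm_num) hq hκ) d
  have hy1 : T * (4 * (d:ℝ) ^ 2 * y) ≤ η / 4 := by
    have h1 := (hN₁ d (by omega)).trans (hexp (ε / 2) (by positivity))
    have h2 : y * q ^ (ε / 2 * d) = 1 := by
      rw [hy, ← Real.rpow_add hq0, neg_add_cancel, Real.rpow_zero]
    have h3 : y * (T * 16 / η * (d:ℝ) ^ 2) ≤ 1 :=
      (mul_le_mul_of_nonneg_left h1 hy0.le).trans h2.le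
    have h5 : T * (4 * (d:ℝ) ^ 2 * y) = (y * (T * 16 / η * (d:ℝ) ^ 2)) * (η / 4) := by
      field_simp
      ring
    rw [h5]
    calc _ ≤ 1 * (η / 4) := mul_le_mul_of_nonneg_right h3 (by positivity)
      _ = η / 4 := one_mul _
  have hz1 : T * (8 * z) ≤ η / 4 := by
    have h1 := (hN₂ d (by omega)).trans (hexp (1 / 3) (by norm_num))
    have h2 : z * q ^ ((1:ℝ) / 3 * d) = 1 := by
      rw [hz, ← Real.rpow_add hq0, neg_add_cancel, Real.rpow_zero]
    have h3 : z * (T * 32 / η * (d:ℝ) ^ 0) ≤ 1 :=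
      (mul_le_mul_of_nonneg_left h1 hz0.le).trans h2.le
    have h5 : T * (8 * z) = (z * (T * 32 / η * (d:ℝ) ^ 0)) * (η / 4) := by
      field_simp
      ring
    rw [h5]
    calc _ ≤ 1 * (η / 4) := mul_le_mul_of_nonneg_right h3 (by positivity)
      _ = η / 4 := one_mul _
  have hzη : z ≤ η / 4 := by
    have : 1 * (8 * z) ≤ T * (8 * z) := mul_le_mul_of_nonneg_right hT1 (by positivity)
    linarith
  have hxz : x ≤ z := by
    rw [hx, hz, Real.sqrt_eq_rpow, ← Real.rpow_neg hq0.le, ← Real.rpow_natCast,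
      ← Real.rpow_mul hq0.le]
    apply Real.rpow_le_rpow_of_exponent_le (by linarith)
    linarith
  have hE1 : q ^ (n - d + n / 2) ≤ q ^ n * y := by
    rw [hy, ← Real.rpow_natCast, ← Real.rpow_natCast q n, ← Real.rpow_add hq0]
    apply Real.rpow_le_rpow_of_exponent_le (by linarith)
    have h1 : ((n / 2 : ℕ) : ℝ) ≤ (n:ℝ) / 2 := Nat.cast_div_le
    rw [Nat.cast_add, Nat.cast_sub hdn.le]
    nlinarith
  have hE2 : q ^ (2 * (n / 3)) ≤ q ^ n * z := by
    rw [hz, ← Real.rpow_natCast, ← Real.rpow_natCast q n, ← Real.rpow_add hq0]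
    apply Real.rpow_le_rpow_of_exponent_le (by linarith)
    have h1 : ((n / 3 : ℕ) : ℝ) ≤ (n:ℝ) / 3 := Nat.cast_div_le
    rw [Nat.cast_mul]
    push_cast
    linarith
  have hn4 : (n:ℝ) ^ 2 ≤ 4 * (d:ℝ) ^ 2 := by
    have : (0:ℝ) ≤ n := Nat.cast_nonneg n
    nlinarith
  have hE : T * (n ^ 2 * q ^ (n - d + n / 2) + 8 * q ^ (2 * (n / 3))) ≤ η / 2 * q ^ n :=
    W_est η T d (q ^ n) _ _ _ y z hη hT1 hqn hy1 hz1 (by positivity) hn4 (by positivity) hE1 hE2
  have hGVlow : (1 - t) * GG n Q - η / 2 * q ^ n ≤ GV n Q := by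
    have h1 := (abs_le.mp hGG).1
    have h2 := hE
    linarith
  set g := GG n Q / q ^ n with hg
  have hg0 : 0 ≤ g := by positivity
  have hgv : (1 - t) * g - η / 2 ≤ GV n Q / q ^ n := by
    rw [le_div_iff₀ hqn, hg]
    refine le_trans (le_of_eq ?_) hGVlow
    field_simp
  have hgv0 : 0 ≤ GV n Q / q ^ n := by positivity
  have hlow : GV n Q / q ^ n ≤ (X - 1) * GV n Q / q ^ n / (X - 2) := by
    rw [le_div_iff₀ hG]
    have h1 : (X - 1) * GV n Q / q ^ n = GV n Q / q ^ n * (X - 1) := by ring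
    rw [h1]
    exact mul_le_mul_of_nonneg_left (by linarith) hgv0
  have h1 : (1 - x) * ((1 - t) * g - η / 2) - x ≤ MSq Q n := by
    exact (sub_le_sub_right (mul_le_mul_of_nonneg_left (hgv.trans hlow)
      (sub_nonneg.mpr hx1)) x).trans hb2
  exact W_fin η x g (MSq Q n) hη hη1 hx0 (hxz.trans hzη) hg0 h1

/-- **(W)** -/
theorem main : S_W := by
  intro η hη ε hε
  rcases le_total η 1 with h | h
  · exact W_aux η hη h ε hε
  · obtain ⟨N, hN⟩ := W_aux 1 one_pos le_rfl ε hε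
    refine ⟨N, ?_⟩
    intro F _ _ Q _ hQ hirr hNd n hdn hn2
    have h1 := hN F Q hQ hirr hNd n hdn hn2
    refine le_trans ?_ h1
    have hq := two_le_card (F := F)
    have hGG0 : 0 ≤ GG n Q := sum_nonneg (fun _ _ => sq_nonneg _)
    have hg0 : 0 ≤ GG n Q / (Fintype.card F : ℝ) ^ n := by positivity
    nlinarith

end Pool.Agent.H84.ZG
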